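import Pool.Agent.KEM.Final

/-!
# Not every pair is the unique basic superrank of a variety of associative algebras

For every field `F` of characteristic zero and every `r ≥ 3` there is no variety of associative
`F`-algebras whose basic spectrum is exactly `{(r, 0)}`.  The proof contains a complete proof of
Kemer's theorem for finitely generated algebras (folder `Pool/Agent/KEM`): a finitely generated
associative PI algebra satisfies exactly the identities that hold in each of finitely many
finite-dimensional algebras over extension fields, that lie in its variety.
-/

universe u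

namespace Pool.Agent.Results.MP_1a662b_al.NoUniqueSuperrank

open Pool.Agent.Helper29

theorem result (F : Type u) [Field F] [CharZero F] :
    (∃ r s : ℕ, (r, s) ≠ (0, 0) ∧
      ∀ K : Set (AssocAlg F), basicSpectrum (var K) ≠ {(r, s)}) ∧
    ∀ r : ℕ, 3 ≤ r → ∀ K : Set (AssocAlg F), basicSpectrum (var K) ≠ {(r, 0)} :=
  ⟨⟨3, 0, by simp, fun K => Pool.Agent.KEM.final (var K) 3 le_rfl⟩,
    fun r hr K => Pool.Agent.KEM.final (var K) r hr⟩

end Pool.Agent.Results.MP_1a662b_al.NoUniqueSuperrank
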